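import Pool.Agent.helper88.RQ2.Spec

open Set Matroid RadonMin

namespace RadonQ2

lemma AR6_main (k q t : ℕ) (hk : 1 ≤ k) (ht : 1 ≤ t) (htk : t ≤ k) :
    (radonMin (2 * k) (q * k + t + 1) : ℤ) = UU q ((q * k + t + 1 : ℕ) : ℤ) k := by
  have hpar : ¬ (2 * k) % 2 = 1 := by omega
  have hdk : 2 * k / 2 = k := by omega
  have h1 : radonMin (2 * k) (q * k + t + 1) =
      (k * q.choose 3 + t * q.choose 2) - corr (q + 1) := by
    unfold radonMin
    rw [if_neg hpar, hdk, Nat.add_sub_cancel, bal_eq k q t hk htk]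
    have h2 : q * k + t + k - 1 = (t - 1) + (q + 1) * k := by
      have h3 : (q + 1) * k = q * k + k := by ring
      omega
    have h3 : (q * k + t + k - 1) / k = q + 1 := by
      rw [h2, Nat.add_mul_div_right _ _ (by omega), Nat.div_eq_of_lt (by omega), Nat.zero_add]
    rw [h3]
  have h2 : corr (q + 1) ≤ k * q.choose 3 + t * q.choose 2 := by
    have e1 := corr_le (q + 1)
    have e2 : (q + 1).choose 3 = q.choose 2 + q.choose 3 := Nat.choose_succ_succ' q 2
    have e3 : 1 * q.choose 3 ≤ k * q.choose 3 := Nat.mul_le_mul_right _ hk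
    have e4 : 1 * q.choose 2 ≤ t * q.choose 2 := Nat.mul_le_mul_right _ ht
    omega
  rw [h1, Nat.cast_sub h2]
  unfold UU
  rw [hh_cast, show q + 2 - 1 = q + 1 by omega]
  have h4 := choose_two_mul q
  have h5 := choose_three_succ q
  have h7 : (q.choose 2 : ℤ) * q = 2 * (q + 1).choose 3 + q.choose 3 := by linarith
  push_cast
  have h8 : (q.choose 2 : ℤ) * (q * k + t + 1 - q - 2) =
      (q.choose 2 * q) * (k - 1) + q.choose 2 * (t - 1) := by ring
  rw [h8, h7, h5]
  ring

lemma AR6_div (k s : ℕ) (hk : 1 ≤ k) (hs : 2 * k + 2 ≤ s) :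
    (radonMin (2 * k) s : ℤ) = UU ((s - 2) / k) s k := by
  have h1 := Nat.div_add_mod (s - 2) k
  have h2 := Nat.mod_lt (s - 2) (show k > 0 by omega)
  set q := (s - 2) / k with hq
  have h3 : k * q = q * k := Nat.mul_comm _ _
  have h4 : s = q * k + ((s - 2) % k + 1) + 1 := by omega
  have h5 := AR6_main k q ((s - 2) % k + 1) hk (by omega) (by omega)
  rw [← h4] at h5
  exact h5

theorem AR6_proof  : AR6_stmt := by
  intro k s hk hs
  have h := AR6_div k s hk hs
  refine ⟨fun h1 => ?_, fun h1 h2 => ?_, fun _ => h⟩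
  · have h3 : (s - 2) / k = 2 := by
      rw [Nat.div_eq_iff (by omega)]
      omega
    rw [h, h3]
    have h4 : hh 4 = 1 := by decide
    simp only [UU, TT]
    rw [show 2 + 2 = 4 from rfl, h4]
    simp only [show Nat.choose 2 2 = 1 by decide, show Nat.choose (2 + 1) 3 = 1 by decide]
    push_cast
    ring
  · have h3 : (s - 2) / k = 3 := by
      rw [Nat.div_eq_iff (by omega)]
      omega
    rw [h, h3]
    have h4 : hh 5 = 3 := by decide
    simp only [UU, TT]
    rw [show 3 + 2 = 5 from rfl, h4]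
    simp only [show Nat.choose 3 2 = 3 by decide, show Nat.choose (3 + 1) 3 = 4 by decide]
    push_cast
    ring

end RadonQ2
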